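import Pool.Agent.H24.PM.Stmts

/-! Project PM: upper bounds for sums of powers of the divisor function over integers composed of
given primes (finite Euler products), and prime sums from S_NTA. -/

namespace PM
open Finset

/-- divisor weight with a natural exponent -/
noncomputable def fm (m n : ℕ) : ℝ := (n.divisors.card : ℝ) ^ (2 * m) / n

theorem fm_nonneg (m n : ℕ) : 0 ≤ fm m n := by unfold fm; positivity

theorem fm_one (m : ℕ) : fm m 1 = 1 := by simp [fm]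

theorem fm_mul (m : ℕ) {a b : ℕ} (h : a.Coprime b) : fm m (a * b) = fm m a * fm m b := by
  unfold fm
  rw [h.card_divisors_mul]
  push_cast
  rw [mul_pow, mul_div_mul_comm]

theorem fm_prime_pow (m : ℕ) {p : ℕ} (hp : p.Prime) (k : ℕ) :
    fm m (p ^ k) = ((k : ℝ) + 1) ^ (2 * m) / (p : ℝ) ^ k := by
  unfold fm
  rw [Nat.divisors_prime_pow hp]
  simp

/-- the constant of the local factor -/
noncomputable def Cm (m : ℕ) : ℝ := ∑' k : ℕ, ((k : ℝ) + 2) ^ (2 * m) / 2 ^ k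

theorem summable_Cm (m : ℕ) : Summable (fun k : ℕ => ((k : ℝ) + 2) ^ (2 * m) / 2 ^ k) := by
  have h := summable_pow_mul_geometric_of_norm_lt_one (R := ℝ) (2 * m) (r := 1 / 2)
    (by rw [Real.norm_of_nonneg (by norm_num)]; norm_num)
  have h2 := ((summable_nat_add_iff 2).mpr h).mul_left 4
  refine h2.congr fun k => ?_
  push_cast
  rw [pow_add (1 / 2 : ℝ) k 2, one_div_pow]
  field_simp
  norm_num

theorem Cm_nonneg (m : ℕ) : 0 ≤ Cm m := tsum_nonneg fun k => by positivity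

theorem term_le (m : ℕ) {p : ℕ} (hp : p.Prime) (k : ℕ) :
    fm m (p ^ (k + 1)) ≤ ((k : ℝ) + 2) ^ (2 * m) / 2 ^ k * (1 / p) := by
  rw [fm_prime_pow m hp]
  have hp2 : (2 : ℝ) ≤ p := by exact_mod_cast hp.two_le
  have hp0 : (0 : ℝ) < p := by linarith
  have h1 : (2 : ℝ) ^ k ≤ (p : ℝ) ^ k := pow_le_pow_left₀ (by norm_num) hp2 k
  have h2 : (((k + 1 : ℕ) : ℝ) + 1) = (k : ℝ) + 2 := by push_cast; ring
  rw [h2, div_mul_div_comm, mul_one]
  refine div_le_div_of_nonneg_left (by positivity) (by positivity) ?_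
  rw [pow_succ]
  exact mul_le_mul_of_nonneg_right h1 hp0.le

theorem summable_local (m : ℕ) {p : ℕ} (hp : p.Prime) :
    Summable (fun k : ℕ => fm m (p ^ k)) := by
  rw [← summable_nat_add_iff 1]
  refine Summable.of_nonneg_of_le (fun k => fm_nonneg _ _) (term_le m hp) ?_
  exact (summable_Cm m).mul_right _

theorem tsum_local_le (m : ℕ) {p : ℕ} (hp : p.Prime) :
    ∑' k : ℕ, fm m (p ^ k) ≤ 1 + Cm m * (1 / p) := by
  rw [(summable_local m hp).tsum_eq_zero_add]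
  rw [pow_zero, fm_one, Cm, ← tsum_mul_right]
  refine add_le_add_right (Summable.tsum_le_tsum (term_le m hp) ?_ ?_) _
  · exact (summable_nat_add_iff 1).mpr (summable_local m hp)
  · exact (summable_Cm m).mul_right _

theorem sum_fm_le (m : ℕ) (A : Finset ℕ) (hA : ∀ l ∈ A, l.Prime) (S : Finset ℕ)
    (hS : ∀ n ∈ S, n ≠ 0 ∧ n.primeFactors ⊆ A) :
    ∑ n ∈ S, fm m n ≤ Real.exp (Cm m * ∑ l ∈ A, 1 / (l : ℝ)) := by
  obtain ⟨hs, hsum⟩ := EulerProduct.summable_and_hasSum_factoredNumbers_prod_filter_prime_tsum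
    (f := fm m) (fm_one m) (fun h => fm_mul m h)
    (fun hp => by
      refine (summable_local m hp).congr fun k => ?_
      rw [Real.norm_of_nonneg (fm_nonneg _ _)]) A
  have hfil : A.filter (fun p => p.Prime) = A := Finset.filter_true_of_mem hA
  rw [hfil] at hsum
  have h1 : ∏ p ∈ A, ∑' n : ℕ, fm m (p ^ n) ≤ Real.exp (Cm m * ∑ l ∈ A, 1 / (l : ℝ)) := by
    rw [Finset.mul_sum, Real.exp_sum]
    refine Finset.prod_le_prod (fun l _ => tsum_nonneg fun k => fm_nonneg _ _) fun l hl => ?_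
    refine (tsum_local_le m (hA l hl)).trans ?_
    have := Real.add_one_le_exp (Cm m * (1 / (l : ℝ)))
    linarith
  refine le_trans ?_ h1
  rw [← hsum.tsum_eq]
  have h4 : ∑ n ∈ S, fm m n = ∑ n ∈ S.attach, fm m (n : ℕ) :=
    (Finset.sum_attach S (fun n => fm m n)).symm
  rw [h4]
  let e : {x // x ∈ S} ↪ Nat.factoredNumbers A :=
    ⟨fun n => ⟨n.1, Nat.mem_factoredNumbers_of_primeFactors_subset (hS n.1 n.2).1 (hS n.1 n.2).2⟩,
      fun a c hac => Subtype.ext (by simpa using congrArg Subtype.val hac)⟩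
  have h5 := (hsum.summable).sum_le_tsum (S.attach.map e) (fun n _ => fm_nonneg _ _)
  rw [Finset.sum_map] at h5
  exact h5

theorem b_sq_le (γ : ℝ) (m : ℕ) (hm : γ ≤ m) (n : ℕ) (hn : n ≠ 0) : b γ n ^ 2 ≤ fm m n := by
  unfold b fm
  have hn0 : (0 : ℝ) < n := by exact_mod_cast Nat.pos_of_ne_zero hn
  have hd : (1 : ℝ) ≤ (n.divisors.card : ℝ) := by
    exact_mod_cast Finset.card_pos.mpr ⟨1, by simp [hn]⟩
  rw [div_pow, Real.sq_sqrt hn0.le]
  refine div_le_div_of_nonneg_right ?_ hn0.le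
  rw [mul_comm 2 m, pow_mul]
  refine pow_le_pow_left₀ (by positivity) ?_ 2
  calc (n.divisors.card : ℝ) ^ γ ≤ (n.divisors.card : ℝ) ^ (m : ℝ) :=
        Real.rpow_le_rpow_of_exponent_le hd hm
    _ = (n.divisors.card : ℝ) ^ m := Real.rpow_natCast _ _

theorem CS_zero (A : Finset ℕ) : CS A 0 0 = ∑ l ∈ A, 1 / (l : ℝ) := by
  unfold CS
  refine Finset.sum_congr rfl fun l _ => ?_
  rw [zero_mul, Real.cos_zero, mul_one, add_zero, Real.rpow_neg_one, one_div]

theorem mem_PrS {u v : ℝ} {l : ℕ} : l ∈ PrS u v ↔ l.Prime ∧ u < l ∧ (l : ℝ) ≤ v := by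
  unfold PrS
  rw [Finset.mem_filter, Finset.mem_range]
  constructor
  · rintro ⟨h1, h2, h3⟩
    refine ⟨h2, h3, ?_⟩
    have h4 : l ≤ ⌊v⌋₊ := by omega
    have h5 : l ≠ 0 := h2.ne_zero
    exact (Nat.le_floor_iff' h5).mp h4
  · rintro ⟨h1, h2, h3⟩
    refine ⟨?_, h1, h2⟩
    have := Nat.le_floor h3
    omega

theorem prime_PrS {u v : ℝ} : ∀ l ∈ PrS u v, l.Prime := fun _ hl => (mem_PrS.mp hl).1

/-- reciprocal sums over a short logarithmic range -/
theorem sum_recip_le (hNTA : S_NTA) : ∃ C : ℝ, 0 < C ∧ ∀ u v : ℝ, 2 ≤ u → u ≤ v →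
    |∑ l ∈ PrS u v, 1 / (l : ℝ) - Real.log (Real.log v / Real.log u)| ≤ C := by
  obtain ⟨C, hC, h⟩ := hNTA
  refine ⟨C, hC, fun u v hu huv => ?_⟩
  have := h u v 0 hu huv (by norm_num)
  rwa [CS_zero] at this

theorem PrS_one_eq {y : ℝ} (hy : 2 ≤ y) : PrS 1 y = insert 2 (PrS 2 y) := by
  ext l
  rw [Finset.mem_insert, mem_PrS, mem_PrS]
  constructor
  · rintro ⟨h1, h2, h3⟩
    by_cases hl : l = 2
    · exact Or.inl hl
    · refine Or.inr ⟨h1, ?_, h3⟩
      have : 2 < l := lt_of_le_of_ne h1.two_le (Ne.symm hl)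
      exact_mod_cast this
  · rintro (h | ⟨h1, h2, h3⟩)
    · subst h
      exact ⟨Nat.prime_two, by norm_num, by exact_mod_cast hy⟩
    · exact ⟨h1, by linarith, h3⟩

theorem two_notMem (y : ℝ) : 2 ∉ PrS 2 y := by
  rw [mem_PrS]
  rintro ⟨_, h, _⟩
  norm_num at h

/-- sum of 1/l over all primes up to y -/
theorem sum_recip_one (hNTA : S_NTA) : ∃ C : ℝ, 0 < C ∧ ∀ y : ℝ, 2 ≤ y →
    |∑ l ∈ PrS 1 y, 1 / (l : ℝ) - Real.log (Real.log y)| ≤ C := by
  obtain ⟨C, hC, h⟩ := sum_recip_le hNTA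
  have hl2 : 0 < Real.log 2 := Real.log_pos (by norm_num)
  refine ⟨C + 1 / 2 + |Real.log (Real.log 2)|, by positivity, fun y hy => ?_⟩
  rw [PrS_one_eq hy, Finset.sum_insert (two_notMem y)]
  have hly : 0 < Real.log y := Real.log_pos (by linarith)
  have h1 := h 2 y le_rfl hy
  rw [Real.log_div hly.ne' hl2.ne'] at h1
  have h2 : (1 : ℝ) / ((2 : ℕ) : ℝ) = 1 / 2 := by norm_num
  rw [h2]
  calc |1 / 2 + ∑ l ∈ PrS 2 y, 1 / (l : ℝ) - Real.log (Real.log y)|
      = |(∑ l ∈ PrS 2 y, 1 / (l : ℝ) - (Real.log (Real.log y) - Real.log (Real.log 2))) + 1 / 2 +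
        (-Real.log (Real.log 2))| := by congr 1; ring
    _ ≤ _ := by
      refine (abs_add_le _ _).trans ?_
      rw [abs_neg]
      refine add_le_add_left ((abs_add_le _ _).trans ?_) _
      refine add_le_add h1 ?_
      rw [abs_of_nonneg (by norm_num)]

/-- sums of squared coefficients over y-smooth integers -/
theorem sum_b_smooth (hNTA : S_NTA) (γ : ℝ) : ∃ C B : ℝ, 0 < C ∧ 0 < B ∧
    ∀ (y : ℝ) (S : Finset ℕ), 2 ≤ y → (∀ n ∈ S, n ≠ 0 ∧ n.primeFactors ⊆ PrS 1 y) →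
    ∑ n ∈ S, b γ n ^ 2 ≤ C * (Real.log y) ^ B := by
  obtain ⟨C, hC, h⟩ := sum_recip_one hNTA
  obtain ⟨m, hm⟩ := exists_nat_ge γ
  have hl2 : 0 < Real.log 2 := Real.log_pos (by norm_num)
  refine ⟨Real.exp ((Cm m + 1) * (C + |Real.log (Real.log 2)|)), Cm m + 1, Real.exp_pos _,
    by linarith [Cm_nonneg m], fun y S hy hS => ?_⟩
  have hly : 0 < Real.log y := Real.log_pos (by linarith)
  have h1 : ∑ n ∈ S, b γ n ^ 2 ≤ ∑ n ∈ S, fm m n :=
    Finset.sum_le_sum fun n hn => b_sq_le γ m hm n (hS n hn).1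
  refine (h1.trans (sum_fm_le m (PrS 1 y) prime_PrS S hS)).trans ?_
  rw [Real.rpow_def_of_pos hly, ← Real.exp_add]
  refine Real.exp_le_exp.mpr ?_
  have h2 := (abs_le.mp (h y hy)).2
  have h3 : ∑ l ∈ PrS 1 y, 1 / (l : ℝ) ≤ Real.log (Real.log y) + C := by linarith
  have h4 : Real.log (Real.log 2) ≤ Real.log (Real.log y) :=
    Real.log_le_log hl2 (Real.log_le_log (by norm_num) hy)
  have h5 : 0 ≤ Real.log (Real.log y) + C + |Real.log (Real.log 2)| := by
    have := neg_abs_le (Real.log (Real.log 2))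
    linarith
  calc Cm m * ∑ l ∈ PrS 1 y, 1 / (l : ℝ) ≤ Cm m * (Real.log (Real.log y) + C) :=
        mul_le_mul_of_nonneg_left h3 (Cm_nonneg m)
    _ ≤ Cm m * (Real.log (Real.log y) + C + |Real.log (Real.log 2)|) :=
        mul_le_mul_of_nonneg_left (by linarith [abs_nonneg (Real.log (Real.log 2))]) (Cm_nonneg m)
    _ ≤ (Cm m + 1) * (Real.log (Real.log y) + C + |Real.log (Real.log 2)|) :=
        mul_le_mul_of_nonneg_right (by linarith) h5
    _ = _ := by ring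

/-- sums of squared coefficients over integers with primes in (y, y^e] -/
theorem sum_fm_band (hNTA : S_NTA) (m : ℕ) : ∃ C : ℝ, 0 < C ∧
    ∀ (y : ℝ) (S : Finset ℕ), 2 ≤ y →
    (∀ n ∈ S, n ≠ 0 ∧ n.primeFactors ⊆ PrS y (y ^ Real.exp 1)) → ∑ n ∈ S, fm m n ≤ C := by
  obtain ⟨C, hC, h⟩ := sum_recip_le hNTA
  refine ⟨Real.exp (Cm m * (1 + C)), Real.exp_pos _, fun y S hy hS => ?_⟩
  refine (sum_fm_le m _ prime_PrS S hS).trans (Real.exp_le_exp.mpr ?_)
  refine mul_le_mul_of_nonneg_left ?_ (Cm_nonneg m)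
  have hly : 0 < Real.log y := Real.log_pos (by linarith)
  have he : (1 : ℝ) ≤ Real.exp 1 := Real.one_le_exp (by norm_num)
  have hyy : y ≤ y ^ Real.exp 1 := by
    calc y = y ^ (1 : ℝ) := (Real.rpow_one y).symm
      _ ≤ _ := Real.rpow_le_rpow_of_exponent_le (by linarith) he
  have h1 := (abs_le.mp (h y _ hy hyy)).2
  rw [Real.log_rpow (by linarith), mul_div_assoc, div_self hly.ne', mul_one, Real.log_exp] at h1
  linarith

end PM
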